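import Pool.Agent.P.MP_f97ab1_an.Main

/-! From a good system to an algebraic basis that is a Schauder basis of every completion. -/

set_option autoImplicit false

namespace Pool.Agent.P.MP_f97ab1_an.H

open Finset Filter Topology

theorem basis_of_goodSys {V : Type} [AddCommGroup V] [Module ℂ V] {ν : Seminorm ℂ V}
    (G : GoodSys ν) : ∃ (b : Module.Basis ℕ ℂ V) (K : ℝ), 0 ≤ K ∧
      ∀ N v, ν (∑ n ∈ range N, b.repr v n • b n) ≤ K * ν v := by
  classical
  obtain ⟨g⟩ := exists_orderIso_nat G.κ G.fin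
  set e : ℕ → V := fun n => G.e (g n) with he
  set φ : ℕ → V →ₗ[ℂ] ℂ := fun n => G.φ (g n) with hφ
  have hφe : ∀ m n, φ m (e n) = if m = n then 1 else 0 := by
    intro m n
    split_ifs with h
    · subst h; exact G.same _
    · exact G.ne _ _ (fun h' => h (g.injective h'))
  have hsep : ∀ v w, (∀ n, φ n v = φ n w) → v = w := by
    intro v w h
    rw [← sub_eq_zero]
    refine G.sep _ (fun b => ?_)
    obtain ⟨n, rfl⟩ := g.surjective b
    rw [map_sub, sub_eq_zero]
    exact h n
  have hcoef : ∀ (d : ℕ → ℂ) (s : Finset ℕ) m,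
      φ m (∑ n ∈ s, d n • e n) = if m ∈ s then d m else 0 := by
    intro d s m
    simp only [map_sum, map_smul, hφe, smul_eq_mul, mul_ite, mul_one, mul_zero]
    rw [Finset.sum_ite_eq]
  have hli : LinearIndependent ℂ e := by
    rw [linearIndependent_iff']
    intro s d hd m hm
    have := hcoef d s m
    rw [hd, map_zero, if_pos hm] at this
    exact this.symm
  have hfin : ∀ v, {n | φ n v ≠ 0}.Finite := fun v => (G.supp v).preimage (f := g) g.injective.injOn
  have hexp : ∀ v, v = ∑ n ∈ (hfin v).toFinset, φ n v • e n := by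
    intro v
    refine hsep _ _ fun m => ?_
    rw [hcoef]
    split_ifs with h
    · rfl
    · simpa using h
  have hsp : ⊤ ≤ Submodule.span ℂ (Set.range e) := by
    intro v _
    rw [hexp v]
    exact Submodule.sum_mem _ fun n _ => Submodule.smul_mem _ _ (Submodule.subset_span ⟨n, rfl⟩)
  let b := Module.Basis.mk hli hsp
  have hb : ∀ n, b n = e n := Module.Basis.mk_apply hli hsp
  have hr : ∀ v n, b.repr v n = φ n v := by
    intro v n
    have : b.coord n = φ n := by
      refine b.ext fun m => ?_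
      rw [Module.Basis.coord_apply, b.repr_self, hb, hφe, Finsupp.single_apply]
      simp only [eq_comm]
    rw [← this, Module.Basis.coord_apply]
  refine ⟨b, G.K, G.K_nonneg, fun N v => ?_⟩
  have hSP : ∑ n ∈ range N, b.repr v n • b n = G.Pr (g N) v := by
    simp only [hr, hb]
    refine hsep _ _ (fun m => ?_)
    rw [hcoef]
    change _ = G.φ (g m) _
    rw [G.P_coef]
    simp [hφ]
  rw [hSP]
  exact G.P_le _ _

theorem schauder_of_basis {V : Type} [AddCommGroup V] [Module ℂ V] {X : Type*}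
    [NormedAddCommGroup X] [NormedSpace ℂ X] (b : Module.Basis ℕ ℂ V) (K : ℝ) (hK : 0 ≤ K)
    (J : V →ₗ[ℂ] X) (hd : DenseRange J) (hJ : ∀ v, J v = 0 → v = 0)
    (hle : ∀ N v, ‖J (∑ n ∈ range N, b.repr v n • b n)‖ ≤ K * ‖J v‖) :
    ∃ B : SchauderBasis ℂ X, ∀ k, B k = J (b k) := by
  classical
  have he0 : ∀ n, 0 < ‖J (b n)‖ := fun n => norm_pos_iff.2 fun h => b.ne_zero n (hJ _ h)
  have hφle : ∀ n, ∃ C, ∀ v, ‖b.coord n v‖ ≤ C * ‖J v‖ := by
    intro n
    refine ⟨2 * K / ‖J (b n)‖, fun v => ?_⟩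
    have h1 : ∑ m ∈ range (n + 1), b.repr v m • b m - ∑ m ∈ range n, b.repr v m • b m
        = b.repr v n • b n := by
      rw [Finset.sum_range_succ]
      abel
    have h2 : ‖b.repr v n‖ * ‖J (b n)‖ ≤ 2 * K * ‖J v‖ := by
      rw [← norm_smul, ← map_smul, ← h1, map_sub]
      refine (norm_sub_le _ _).trans ?_
      have := hle (n + 1) v
      have := hle n v
      linarith
    rw [div_mul_eq_mul_div, le_div_iff₀ (he0 n)]
    exact h2
  let c : ℕ → X →L[ℂ] ℂ := fun n => (b.coord n).extendOfNorm J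
  have hc : ∀ n v, c n (J v) = b.repr v n := fun n v => LinearMap.extendOfNorm_eq hd (hφle n) v
  have hP : ∀ N v, ∑ n ∈ range N, c n (J v) • J (b n) = J (∑ n ∈ range N, b.repr v n • b n) := by
    intro N v
    simp only [hc, map_sum, map_smul]
  have hPle : ∀ N x, ‖∑ n ∈ range N, c n x • J (b n)‖ ≤ K * ‖x‖ := by
    intro N x
    refine hd.induction_on x (isClosed_le (by fun_prop) (by fun_prop)) fun v => ?_
    rw [hP]
    exact hle N v
  have hev : ∀ v, ∃ N₀, ∀ N, N₀ ≤ N → ∑ n ∈ range N, b.repr v n • b n = v := by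
    intro v
    obtain ⟨B, hB⟩ := (b.repr v).support.bddAbove
    refine ⟨B + 1, fun N hN => ?_⟩
    conv_rhs => rw [← b.linearCombination_repr v, Finsupp.linearCombination_apply]
    refine (Finsupp.sum_of_support_subset _ (fun n hn => ?_) (fun i (a : ℂ) => a • b i)
      (fun _ _ => zero_smul _ _)).symm
    have := hB (Finset.mem_coe.2 hn)
    rw [mem_range]
    omega
  refine ⟨⟨fun k => J (b k), c, fun i j => ?_, fun x => ?_⟩, fun k => rfl⟩
  · rw [hc, b.repr_self]
    by_cases h : i = j
    · subst h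
      simp
    · simp [h]
  · rw [HasSum, SummationFilter.conditional_filter_eq_map_range, tendsto_map'_iff,
      Metric.tendsto_atTop]
    intro ε hε
    obtain ⟨v, hv⟩ := hd.exists_dist_lt x (show 0 < ε / (K + 1) by positivity)
    obtain ⟨N₀, hN₀⟩ := hev v
    refine ⟨N₀, fun N hN => ?_⟩
    have h1 := hPle N (x - J v)
    have h2 : ∑ n ∈ range N, c n (x - J v) • J (b n) =
        ∑ n ∈ range N, c n x • J (b n) - J v := by
      simp only [map_sub, sub_smul, Finset.sum_sub_distrib]
      rw [hP, hN₀ N hN]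
    rw [h2] at h1
    rw [dist_eq_norm, lt_div_iff₀ (by positivity)] at hv
    have h3 := norm_sub_le_norm_sub_add_norm_sub (∑ n ∈ range N, c n x • J (b n)) (J v) x
    rw [norm_sub_rev (J v) x] at h3
    change dist (∑ n ∈ range N, c n x • J (b n)) x < ε
    rw [dist_eq_norm]
    nlinarith

end Pool.Agent.P.MP_f97ab1_an.H
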