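import Pool.Agent.P.MP_f97ab1_an.H.Bas

/-! The Bohr lift and equidistribution of the Kronecker flow. -/

set_option autoImplicit false

namespace Pool.Agent.P.MP_f97ab1_an.H

open Finset Filter Topology MeasureTheory Complex

/-- The primes in increasing order. -/
noncomputable abbrev pp (i : ℕ) : ℕ := Nat.nth Nat.Prime i

lemma pp_prime (i : ℕ) : (pp i).Prime := Nat.prime_nth_prime i

lemma pp_inj : Function.Injective pp := Nat.nth_injective Nat.infinite_setOfPred_prime

/-- The integer with the given exponents. -/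
noncomputable def num (k : Fr) : ℕ := ∏ i ∈ k.support, pp i ^ (k i).toNat

lemma num_pos (k : Fr) : 0 < num k :=
  Finset.prod_pos fun i _ => pow_pos (pp_prime i).pos _

lemma num_fact (k : Fr) (j : ℕ) : (num k).factorization (pp j) = (k j).toNat := by
  classical
  rw [num, Nat.factorization_prod fun i _ => (pow_pos (pp_prime i).pos _).ne',
    Finsupp.finsetSum_apply]
  simp only [(pp_prime _).factorization_pow, Finsupp.single_apply, pp_inj.eq_iff]
  rw [Finset.sum_ite_eq']
  split_ifs with h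
  · rfl
  · rw [Finsupp.notMem_support_iff.1 h]
    rfl

lemma fact_ext {a b : ℕ} (ha : a ≠ 0) (hb : b ≠ 0)
    (h : ∀ j, a.factorization (pp j) = b.factorization (pp j)) : a = b := by
  refine Nat.eq_of_factorization_eq ha hb fun p => ?_
  by_cases hp : p.Prime
  · have := h (Nat.count Nat.Prime p)
    rwa [pp, Nat.nth_count hp] at this
  · rw [Nat.factorization_eq_zero_of_not_prime _ hp, Nat.factorization_eq_zero_of_not_prime _ hp]

/-- Exponent vectors and positive integers. -/
noncomputable def idx : ({k : Fr | 0 ≤ k} : Set Fr) ≃ ℕ+ :=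
  Equiv.ofBijective (fun k => ⟨num k.1, num_pos _⟩) <| by
    constructor
    · intro k l h
      have h' : num k.1 = num l.1 := congrArg Subtype.val h
      ext j
      have h1 := num_fact k.1 j
      rw [h', num_fact] at h1
      have h2 : 0 ≤ k.1 j := k.2 j
      have h3 : 0 ≤ l.1 j := l.2 j
      omega
    · intro n
      let k : Fr := (Finsupp.comapDomain pp (n : ℕ).factorization pp_inj.injOn).mapRange
        (fun a : ℕ => (a : ℤ)) rfl
      have hk : ∀ j, k j = ((n : ℕ).factorization (pp j) : ℤ) := fun j => rfl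
      refine ⟨⟨k, fun j => by rw [hk]; exact Int.natCast_nonneg _⟩, Subtype.ext ?_⟩
      refine fact_ext (num_pos k).ne' n.ne_zero fun j => ?_
      rw [num_fact, hk, Int.toNat_natCast]
      rfl

lemma idx_val (k : ({k : Fr | 0 ≤ k} : Set Fr)) : ((idx k : ℕ+) : ℕ) = num k.1 := rfl

/-- The frequency of a character along the flow. -/
noncomputable def fq (k : Fr) : ℝ := Finsupp.linearCombination ℤ (fun i => Real.log (pp i)) k

lemma fq_eq (k : Fr) : fq k = ∑ i ∈ k.support, (k i : ℝ) * Real.log (pp i) := by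
  simp [fq, Finsupp.linearCombination_apply, Finsupp.sum]

lemma fq_num (k : Fr) (hk : 0 ≤ k) : fq k = Real.log (num k) := by
  rw [fq_eq, num, Nat.cast_prod,
    Real.log_prod fun i _ => by exact_mod_cast (pow_pos (pp_prime i).pos _).ne']
  refine Finset.sum_congr rfl fun i _ => ?_
  have h : (((k i).toNat : ℕ) : ℝ) = k i := by exact_mod_cast Int.toNat_of_nonneg (hk i)
  rw [Nat.cast_pow, Real.log_pow, h]

lemma fq_ne (k : Fr) (hk : k ≠ 0) : fq k ≠ 0 := by
  intro h
  have h1 : k = k⁺ - k⁻ := (posPart_sub_negPart k).symm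
  have h2 : fq k = fq k⁺ - fq k⁻ := by
    conv_lhs => rw [h1]
    exact map_sub _ _ _
  rw [h, fq_num _ (posPart_nonneg k), fq_num _ (negPart_nonneg k), eq_comm, sub_eq_zero] at h2
  have h3 : num k⁺ = num k⁻ := by
    have := Real.log_injOn_pos (Set.mem_Ioi.2 (by exact_mod_cast num_pos _))
      (Set.mem_Ioi.2 (by exact_mod_cast num_pos _)) h2
    exact_mod_cast this
  have h4 : (⟨k⁺, posPart_nonneg k⟩ : ({k : Fr | 0 ≤ k} : Set Fr)) = ⟨k⁻, negPart_nonneg k⟩ :=
    idx.injective (Subtype.ext h3)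
  have h5 : k⁺ = k⁻ := congrArg Subtype.val h4
  exact hk (by rw [h1, h5, sub_self])

/-- The Kronecker flow. -/
noncomputable def flow (t : ℝ) : Tor :=
  fun i => ((-(t * Real.log (pp i)) / (2 * Real.pi) : ℝ) : AddCircle (1 : ℝ))

lemma continuous_flow : Continuous flow :=
  continuous_pi fun _ => (AddCircle.continuous_mk' 1).comp (by fun_prop)

lemma chi_flow (k : Fr) (t : ℝ) : chi k (flow t) = cexp (-(I * fq k) * t) := by
  rw [chi_apply, pr_eq, ex_sum, fq_eq]
  push_cast
  rw [Finset.mul_sum, ← Finset.sum_neg_distrib, Finset.sum_mul, Complex.exp_sum]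
  refine Finset.prod_congr rfl fun i _ => ?_
  rw [← fourier_eq_ex, flow, fourier_coe_apply]
  congr 1
  have : (Real.pi : ℂ) ≠ 0 := by exact_mod_cast Real.pi_ne_zero
  push_cast
  field_simp

/-- Time average along the flow. -/
noncomputable def avg (T : ℝ) (F : C(Tor, ℂ)) : ℂ :=
  ((2 * T)⁻¹ : ℝ) • ∫ t in (-T)..T, F (flow t)

lemma ii (F : C(Tor, ℂ)) (a b : ℝ) : IntervalIntegrable (fun t => F (flow t)) volume a b :=
  (F.continuous.comp continuous_flow).intervalIntegrable a b

lemma avg_le {T : ℝ} (hT : 0 < T) (F : C(Tor, ℂ)) : ‖avg T F‖ ≤ ‖F‖ := by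
  have h := intervalIntegral.norm_integral_le_of_norm_le_const (a := -T) (b := T)
    (f := fun t => F (flow t)) (C := ‖F‖) fun t _ => F.norm_coe_le_norm _
  rw [avg, norm_smul, Real.norm_eq_abs, abs_of_pos (by positivity)]
  rw [abs_of_pos (by linarith)] at h
  rw [inv_mul_le_iff₀ (by positivity)]
  linarith

lemma avg_sub (T : ℝ) (F G : C(Tor, ℂ)) : avg T (F - G) = avg T F - avg T G := by
  simp only [avg, ContinuousMap.sub_apply]
  rw [intervalIntegral.integral_sub (ii F _ _) (ii G _ _), smul_sub]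

lemma avg_add (T : ℝ) (F G : C(Tor, ℂ)) : avg T (F + G) = avg T F + avg T G := by
  simp only [avg, ContinuousMap.add_apply]
  rw [intervalIntegral.integral_add (ii F _ _) (ii G _ _), smul_add]

lemma avg_smul (T : ℝ) (c : ℂ) (F : C(Tor, ℂ)) : avg T (c • F) = c * avg T F := by
  simp only [avg, ContinuousMap.smul_apply, smul_eq_mul]
  rw [intervalIntegral.integral_const_mul, mul_smul_comm]

lemma avg_chi (k : Fr) : Tendsto (fun T => avg T (chi k)) atTop (𝓝 (∫ z, chi k z ∂mu)) := by
  rw [integral_chi]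
  split_ifs with h
  · subst h
    refine tendsto_const_nhds.congr' ?_
    filter_upwards [eventually_gt_atTop 0] with T hT
    have : (T : ℂ) ≠ 0 := by exact_mod_cast hT.ne'
    simp only [avg, chi_zero, intervalIntegral.integral_const, real_smul]
    push_cast
    field_simp
    ring
  · have h1 : (fq k : ℂ) ≠ 0 := by exact_mod_cast fq_ne k h
    have h2 : -(I * fq k) ≠ 0 := neg_ne_zero.2 (mul_ne_zero I_ne_zero h1)
    rw [tendsto_zero_iff_norm_tendsto_zero]
    have h3 : Tendsto (fun T : ℝ => (2 * T)⁻¹ * (2 / ‖-(I * fq k)‖)) atTop (𝓝 0) := by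
      have := (tendsto_inv_atTop_zero.comp
        (tendsto_id.const_mul_atTop (show (0 : ℝ) < 2 by norm_num))).mul_const (2 / ‖-(I * fq k)‖)
      simpa using this
    refine squeeze_zero' (Eventually.of_forall fun _ => norm_nonneg _) ?_ h3
    filter_upwards [eventually_gt_atTop 0] with T hT
    simp only [avg, chi_flow]
    rw [integral_exp_mul_complex h2, norm_smul, Real.norm_eq_abs, abs_of_pos (by positivity),
      norm_div]
    gcongr
    refine (norm_sub_le _ _).trans (le_of_eq ?_)
    rw [← chi_flow, ← chi_flow, norm_chi, norm_chi]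
    norm_num

lemma avg_ev (p : Tr) : Tendsto (fun T => avg T (ev p)) atTop (𝓝 (∫ z, ev p z ∂mu)) := by
  induction p using Finsupp.induction_linear with
  | zero => simp [avg]
  | add p q hp hq =>
    simp only [map_add, avg_add, ContinuousMap.add_apply]
    rw [integral_add (cont_integrable (ev p).continuous) (cont_integrable (ev q).continuous)]
    exact hp.add hq
  | single k c =>
    have : ev (Finsupp.single k c) = c • chi k := Finsupp.linearCombination_single _ _ _
    simp only [this, avg_smul, ContinuousMap.smul_apply, smul_eq_mul]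
    rw [integral_const_mul]
    exact (avg_chi k).const_mul c

theorem avg_tendsto (F : C(Tor, ℂ)) :
    Tendsto (fun T => avg T F) atTop (𝓝 (∫ z, F z ∂mu)) := by
  rw [Metric.tendsto_nhds]
  intro ε hε
  obtain ⟨p, hp⟩ := ev_denseRange.exists_dist_lt F (show 0 < ε / 3 by positivity)
  rw [dist_eq_norm] at hp
  filter_upwards [Metric.tendsto_nhds.1 (avg_ev p) (ε / 3) (by positivity),
    eventually_gt_atTop 0] with T h1 hT
  have h2 := avg_le hT (F - ev p)
  rw [avg_sub] at h2
  have h3 : ‖∫ z, ev p z ∂mu - ∫ z, F z ∂mu‖ ≤ ‖F - ev p‖ := by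
    rw [norm_sub_rev,
      ← integral_sub (cont_integrable F.continuous) (cont_integrable (ev p).continuous)]
    have := norm_integral_le_of_norm_le_const (μ := mu) (f := fun z => F z - ev p z)
      (C := ‖F - ev p‖) (Eventually.of_forall fun z => (F - ev p).norm_coe_le_norm z)
    simpa using this
  have h4 := dist_triangle4 (avg T F) (avg T (ev p)) (∫ z, ev p z ∂mu) (∫ z, F z ∂mu)
  rw [dist_eq_norm (avg T F) (avg T (ev p)), dist_eq_norm (∫ z, ev p z ∂mu)] at h4
  linarith

theorem mean_nu (p : Tr) : Tendsto (fun T : ℝ => (2 * T)⁻¹ * ∫ t in (-T)..T, ‖ev p (flow t)‖)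
    atTop (𝓝 (nu p)) := by
  have h := avg_tendsto ⟨fun z => (‖ev p z‖ : ℝ), by fun_prop⟩
  have h2 := (Complex.continuous_re.tendsto _).comp h
  simp only [ContinuousMap.coe_mk] at h2
  rw [integral_complex_ofReal, ofReal_re, ← nu_eq] at h2
  refine h2.congr fun T => ?_
  simp only [Function.comp, avg, ContinuousMap.coe_mk]
  rw [intervalIntegral.integral_ofReal, real_smul, ← ofReal_mul, ofReal_re]

/-- The Bohr lift. -/
noncomputable def bohr : (ℕ+ →₀ ℂ) ≃ₗ[ℂ] An :=
  (Finsupp.domLCongr idx.symm).trans (Finsupp.supportedEquivFinsupp {k : Fr | 0 ≤ k}).symm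

lemma bohr_single (n : ℕ+) (c : ℂ) :
    (bohr (Finsupp.single n c)).1 = Finsupp.single (idx.symm n).1 c := by
  have h : bohr (Finsupp.single n c) = (Finsupp.supportedEquivFinsupp (R := ℂ) {k : Fr | 0 ≤ k}).symm
      (Finsupp.domLCongr (R := ℂ) idx.symm (Finsupp.single n c)) := rfl
  rw [h, Finsupp.domLCongr_single]
  exact Finsupp.supportedEquivFinsupp_symm_single _ _ _

lemma ev_bohr (a : ℕ+ →₀ ℂ) (t : ℝ) :
    ev (bohr a).1 (flow t) = a.sum fun n c => c * ((n : ℕ) : ℂ) ^ (-(I * t)) := by
  induction a using Finsupp.induction_linear with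
  | zero => simp
  | add p q hp hq =>
    rw [Finsupp.sum_add_index' (fun _ => zero_mul _) (fun _ _ _ => add_mul _ _ _), ← hp, ← hq,
      map_add, Submodule.coe_add, map_add, ContinuousMap.add_apply]
  | single n c =>
    have : ev (Finsupp.single (idx.symm n).1 c) = c • chi (idx.symm n).1 :=
      Finsupp.linearCombination_single _ _ _
    rw [Finsupp.sum_single_index (zero_mul _), bohr_single, this, ContinuousMap.smul_apply,
      smul_eq_mul, chi_flow, fq_num _ (idx.symm n).2, ← idx_val, Equiv.apply_symm_apply,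
      cpow_def_of_ne_zero (by exact_mod_cast n.ne_zero), ← Complex.natCast_log]
    congr 2
    ring

theorem mean_tendsto (a : ℕ+ →₀ ℂ) : Tendsto (fun T : ℝ => (2 * T)⁻¹ *
    ∫ t in (-T)..T, ‖a.sum fun n c => c * ((n : ℕ) : ℂ) ^ (-(I * t))‖) atTop
    (𝓝 ‖toL (bohr a).1‖) := by
  simpa only [ev_bohr, nu_apply] using mean_nu (bohr a).1

theorem poly_basis : ∃ (b : Module.Basis ℕ ℂ (ℕ+ →₀ ℂ)) (K : ℝ), 0 ≤ K ∧
    ∀ N a, ‖toL (bohr (∑ n ∈ range N, b.repr a n • b n)).1‖ ≤ K * ‖toL (bohr a).1‖ := by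
  obtain ⟨G⟩ := goodSys_An
  obtain ⟨b, K, hK, h⟩ := basis_of_goodSys G
  refine ⟨b.map bohr.symm, K, hK, fun N a => ?_⟩
  have := h N (bohr a)
  rw [nuA_apply, nuA_apply, nu_apply, nu_apply] at this
  simpa using this

end Pool.Agent.P.MP_f97ab1_an.H
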